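import Pool.Agent.H31.MKS.Targets
import Pool.Agent.H12.LF.Av

/-!
# Asymptotic translation invariance of the finite averages over the regions

Adaptation of `Pool.Agent.H95.DPD.UA`.
-/

set_option autoImplicit false

open Finset Filter Topology

namespace Pool.Agent.H69.MKS

open Pool.Agent.H31.DP Pool.Agent.H31.MKS Pool.Agent.H28.GS Pool.Agent.H12.LF
open Pool.Agent.H91.LF (Bdd)

theorem pf_UAS (hOBS : K_OBS) : K_UAS := by
  intro d J κ x y hx hlim v f hf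
  obtain ⟨B, hB⟩ := hf
  obtain ⟨-, hOB2⟩ := hOBS d J κ
  obtain ⟨C, hC⟩ := hOB2 v
  have hLs : Tendsto (fun j => Ls (x j) (y j)) atTop atTop := tendsto_Ls hx hlim
  refine tendsto_of_bound (E := 2 * (|C| * B)) hLs ?_
  filter_upwards [hLs.eventually_gt_atTop 0] with j hj
  have hB0 : 0 ≤ B := (abs_nonneg _).trans (hB 0)
  have e1 : avR d J κ (x j) (y j) (fun ω => f (ω + v)) - avR d J κ (x j) (y j) f =
      (∑ M ∈ Finset.Icc (x j) (y j), (1 / (M : ℝ)) * ((∑ ω ∈ Rg d J M κ, f (ω + v) -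
        ∑ ω ∈ Rg d J M κ, f ω) / (M : ℝ) ^ (d + 2))) / Ls (x j) (y j) := by
    unfold avR Ls
    rw [← sub_div, ← Finset.sum_sub_distrib]
    congr 1
    refine Finset.sum_congr rfl fun M _ => ?_
    rw [sub_div, mul_sub]
  rw [e1, abs_div, abs_of_pos hj]
  refine div_le_div_of_nonneg_right ?_ hj.le
  have h1 : ∀ M ∈ Finset.Icc (x j) (y j), |(1 / (M : ℝ)) * ((∑ ω ∈ Rg d J M κ, f (ω + v) -
      ∑ ω ∈ Rg d J M κ, f ω) / (M : ℝ) ^ (d + 2))| ≤ (|C| * B) * (1 / (M : ℝ) ^ 2) := by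
    intro M hM
    have hM0 : 0 < M := lt_of_lt_of_le (hx j) (Finset.mem_Icc.1 hM).1
    have hM1 : (0 : ℝ) < M := by exact_mod_cast hM0
    have a1 := hC M hM0 f B hB
    have a3 : C * B * (M : ℝ) ^ (d + 1) ≤ |C| * B * (M : ℝ) ^ (d + 1) := by
      gcongr
      exact le_abs_self C
    have a4 : (0 : ℝ) < (M : ℝ) ^ (d + 2) := by positivity
    rw [abs_mul, abs_of_pos (by positivity : (0 : ℝ) < 1 / (M : ℝ)), abs_div, abs_of_pos a4]
    have a6 : |∑ ω ∈ Rg d J M κ, f (ω + v) - ∑ ω ∈ Rg d J M κ, f ω| / (M : ℝ) ^ (d + 2) ≤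
        (|C| * B * (M : ℝ) ^ (d + 1)) / (M : ℝ) ^ (d + 2) :=
      div_le_div_of_nonneg_right (a1.trans a3) a4.le
    refine (mul_le_mul_of_nonneg_left a6 (by positivity)).trans (le_of_eq ?_)
    field_simp
    ring
  refine (Finset.abs_sum_le_sum_abs _ _).trans ((Finset.sum_le_sum h1).trans ?_)
  rw [← Finset.mul_sum]
  have h2 := sum_inv_sq_le (hx j) (y j)
  have h3 : 0 ≤ |C| * B := by positivity
  nlinarith [mul_le_mul_of_nonneg_left h2 h3]

end Pool.Agent.H69.MKS
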